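import Mathlib
import Pool.Agent.H14.UltraExp

set_option autoImplicit false

namespace Pool.Agent.Results.MP_d3b762_co.NoDiagonal

/-- `E₁(p, q) = {A : {n : {m : n ^ m ∈ A} ∈ q} ∈ p}` on the positive integers. -/
def E1 (p q : Ultrafilter ℕ+) : Set (Set ℕ+) :=
  {A | {n : ℕ+ | {m : ℕ+ | n ^ (m : ℕ) ∈ A} ∈ q} ∈ p}

/-- `E₂(p, q) = {A : {n : {m : m ^ n ∈ A} ∈ q} ∈ p}` on the positive integers. -/
def E2 (p q : Ultrafilter ℕ+) : Set (Set ℕ+) :=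
  {A | {n : ℕ+ | {m : ℕ+ | m ^ (n : ℕ) ∈ A} ∈ q} ∈ p}

/-- No nonprincipal ultrafilter `p` has `E₁(p, p) = E₂(p, p)`. -/
theorem result : ¬ ∃ p : Ultrafilter ℕ+, (∀ a : ℕ+, p ≠ pure a) ∧ E1 p p = E2 p p := by
  rintro ⟨p, hp, h⟩
  exact Pool.Agent.H14.UltraExp.main p p hp hp h

end Pool.Agent.Results.MP_d3b762_co.NoDiagonal
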